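import Pool.Agent.H752.GM.Final
import Pool.Agent.H831R2.GM.SparseP
import Pool.Agent.H584R2.GM.Complete
import Pool.Agent.H485R2.GM.SparseC

/-!
# How many oracles allow sparse Cook-complete sets for `NP`?

For every gauge `f`, the set of the oracles `A` relative to which there is a sparse language which
is complete for `NP` under polynomial-time Turing reductions is a null set for `f` if and only if,
for every `ε > 0`, `f N ≤ 2 ^ ((log N) ^ ε)` for infinitely many `N`. The same holds if `P ≠ NP` is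
added as a condition, and for every set of oracles between `{A | EXP ∪ PSPACE ⊆ ZPP ≠ P}` and the
set of the `A` for which some sparse set (in `NP` or not) is hard for `NP` under Turing reductions.
-/

namespace Pool.Agent.Results.MP_69a69c_lc.GaugeThreshold

open Pool.Agent.NPC Pool.Agent.H620R2.Gauge Pool.Agent.H752.GM Filter

theorem result (f : ℕ → ℝ) :
    (Null f {A : Oracle | ∃ S, Sparse S ∧ CookComplete A S} ↔
      ∀ ε : ℝ, 0 < ε → ∃ᶠ N : ℕ in atTop, f N ≤ 2 ^ (Real.logb 2 N) ^ ε) ∧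
    (Null f {A : Oracle | (∃ S, Sparse S ∧ CookComplete A S) ∧ ∃ L, IsNP A L ∧ ¬ IsP A L} ↔
      ∀ ε : ℝ, 0 < ε → ∃ᶠ N : ℕ in atTop, f N ≤ 2 ^ (Real.logb 2 N) ^ ε) ∧
    ∀ O : Set Oracle,
      (∀ A : Oracle, (∀ L, IsEXP A L ∨ IsPSPACE A L → IsZPP A L) →
        (∃ L, IsZPP A L ∧ ¬ IsP A L) → A ∈ O) →
      (∀ A ∈ O, ∃ S, Sparse S ∧ ∀ L, IsNP A L → IsP (join A S) L) →
      (Null f O ↔
        ∀ ε : ℝ, 0 < ε → ∃ᶠ N : ℕ in atTop, f N ≤ 2 ^ (Real.logb 2 N) ^ ε) := by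
  have hC : ∀ A : Oracle, (∀ L, IsEXP A L ∨ IsPSPACE A L → IsZPP A L) →
      ∃ S, Sparse S ∧ CookComplete A S := fun A h =>
    t_sparseC t_complete A fun L hL => h L (Or.inr hL)
  refine ⟨final_sparse t_sparseP f _ (fun A h _ => hC A h)
      (fun A ⟨S, hS, h⟩ => ⟨S, hS, h.2⟩),
    final_sparse t_sparseP f _ (fun A h ⟨L, h1, h2⟩ => ⟨hC A h, L, h1.isNP, h2⟩)
      (fun A ⟨⟨S, hS, h⟩, _⟩ => ⟨S, hS, h.2⟩),
    fun O h1 h2 => final_sparse t_sparseP f O h1 h2⟩

end Pool.Agent.Results.MP_69a69c_lc.GaugeThreshold
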