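import Pool.Agent.H579R2.Spt.Complete2
import Pool.Agent.H545R2.KS.Sat

/-!
# Sparse sets complete for `NP` under threshold reductions

`P = NP` if and only if some sparse set in `NP` is complete for `NP` under threshold reductions of
polynomial weight and bounded width.

The proof: if the number `k` of members of `S` of length at most `n` is known, the increasing list
of these members is the value of a single-valued `NP` function.  The values of such a function are
found, up to a polynomially long list of candidates, by a search in the tree of prefixes: a prefix
is kept if the perceptron solves the system of linear inequalities which says that the labels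
(polynomial hash followed by an inner product) of that prefix are the labels of the value; the
labels of different prefixes are almost orthogonal, so few prefixes are kept.  Each candidate list
is then used as a database for `S` in the self-reduction of `SAT`.
-/

namespace Pool.Agent.Results.MP_69a69c_lc.ThresholdComplete

open Pool.Agent.NPC Pool.Agent.H579R2.Spt

/-- `P = NP` if and only if there is a sparse set `S` in `NP` to which every language in `NP`
reduces by a polynomial-time threshold reduction of polynomial total weight and bounded width. -/
theorem result :
    (∃ S : Set (List Bool), InNP S ∧ Sparse S ∧ ∀ L : Set (List Bool), InNP L →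
      ∃ (d : Polynomial ℕ) (c : ℕ), ThresholdReduces L S (fun n => d.eval n) (fun _ => c)) ↔
    ∀ L : Set (List Bool), InNP L ↔ InP L := by
  constructor
  · rintro ⟨S, hSNP, hS, h⟩ L
    obtain ⟨hA1, hA2⟩ := Pool.Agent.NPC.H545KS.sat_complete
    obtain ⟨d, c, hred⟩ := h _ hA1
    exact ⟨complete_main _ S hA2 hSNP hS _ c ⟨d, fun _ => le_rfl⟩ hred L, InP.inNP⟩
  · intro h
    refine ⟨∅, ?_, ?_, ?_⟩
    · refine InP.inNP ⟨fun _ => [], ?_, fun x => by simp⟩
      exact PIso.poly_iff.1 (NPC.Poly.const [])
    · exact ⟨0, fun n => by simp [census]⟩
    · intro L hL
      obtain ⟨V, hV, hV'⟩ := (h L).1 hL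
      refine ⟨1, 0, fun x => if V x = [true] then [(1, [])] else [], ?_, fun x => ?_⟩
      · refine polyTime_bits ?_
        exact NPC.Poly.ite (NPC.Poly.decide_eq (PIso.poly_iff.2 hV) (NPC.Poly.const [true]))
          (NPC.Poly.const _) (NPC.Poly.const _)
      · have h1 := hV' x
        change (∀ t ∈ (if V x = [true] then [((1 : ℤ), ([] : List (List Bool)))] else []),
          t.2.length ≤ 0) ∧ weight (if V x = [true] then [((1 : ℤ), ([] : List (List Bool)))]
          else []) ≤ Polynomial.eval x.length 1 ∧
          (x ∈ L ↔ 0 < value ∅ (if V x = [true] then [((1 : ℤ), ([] : List (List Bool)))] else []))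
        by_cases h2 : V x = [true]
        · rw [if_pos h2]
          refine ⟨by simp, by simp [weight], ?_⟩
          rw [h1]
          simp [value, h2]
        · rw [if_neg h2]
          refine ⟨by simp, by simp [weight], ?_⟩
          rw [h1]
          simp [value, h2]

end Pool.Agent.Results.MP_69a69c_lc.ThresholdComplete
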